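import Pool.Agent.H91.RF.TargetsA
import Pool.Agent.H10.RF.Bar

/-!
# MP_609556_an, full answer, module BQ: upper bound by the super-profile
-/

open MeasureTheory Set Filter Topology Metric
open Pool.Agent.H29.TF (hk P)
open Pool.Agent.H91.RD Pool.Agent.H91.RF

namespace Pool.Agent.H17.RF.BQ

open Pool.Agent.H90.RD Pool.Agent.H10.RF

variable {N : ℕ}

/-- minimum principle on a moving region -/
theorem minp {K s0 t r : ℝ} {x0 : E N} {l : ℝ × E N → ℝ} {Z : ℝ → E N → ℝ}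
    (hst : s0 ≤ t) (hr : 0 ≤ r)
    (hcont : ContinuousOn (fun p : ℝ × E N => Z p.1 p.2) (Icc s0 t ×ˢ univ))
    (hl : Continuous l)
    (hlm : ∀ s s' y, s' ≤ s → 0 < l (s, y) → 0 ≤ l (s', y))
    (hd : ∀ s ∈ Ioc s0 t, ∀ y, 0 < l (s, y) → dist y x0 < r → Z s y < 0 →
      ContDiffAt ℝ 2 (Z s) y ∧ DifferentiableAt ℝ (fun s => Z s y) s ∧
      Laplacian.laplacian (Z s) y + K * Z s y ≤ deriv (fun s => Z s y) s)
    (hb0 : ∀ y, dist y x0 ≤ r → 0 ≤ l (s0, y) → 0 ≤ Z s0 y)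
    (hb1 : ∀ s ∈ Icc s0 t, ∀ y, dist y x0 = r → 0 ≤ l (s, y) → 0 ≤ Z s y)
    (hb2 : ∀ s ∈ Icc s0 t, ∀ y, dist y x0 ≤ r → l (s, y) = 0 → 0 ≤ Z s y)
    (hl0 : 0 ≤ l (t, x0)) : 0 ≤ Z t x0 := by
  by_contra hneg
  push Not at hneg
  set W : ℝ × E N → ℝ := fun p => Real.exp (-((K + 1) * p.1)) * Z p.1 p.2 with hW
  set D : Set (ℝ × E N) := (Icc s0 t ×ˢ closedBall x0 r) ∩ {p | 0 ≤ l p} with hD
  have hDc : IsCompact D :=
    (isCompact_Icc.prod (isCompact_closedBall _ _)).inter_right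
      (isClosed_le continuous_const hl)
  have hmem : (t, x0) ∈ D := ⟨⟨⟨hst, le_rfl⟩, mem_closedBall_self hr⟩, hl0⟩
  have hWc : ContinuousOn W D := by
    have h1 : ContinuousOn (fun p : ℝ × E N => Real.exp (-((K + 1) * p.1))) D :=
      Continuous.continuousOn (by fun_prop)
    exact h1.mul (hcont.mono fun p hp => ⟨hp.1.1, mem_univ _⟩)
  obtain ⟨⟨s, y⟩, hsy, hmin⟩ := hDc.exists_isMinOn ⟨_, hmem⟩ hWc
  have hval : Z s y < 0 := by
    have h1 : W (t, x0) < 0 := mul_neg_of_pos_of_neg (Real.exp_pos _) hneg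
    have h2 : W (s, y) < 0 := (hmin hmem).trans_lt h1
    by_contra hc
    push Not at hc
    exact absurd h2 (not_lt.2 (mul_nonneg (Real.exp_pos _).le hc))
  have hs : s ∈ Icc s0 t := hsy.1.1
  have hy : dist y x0 ≤ r := hsy.1.2
  have hly : 0 ≤ l (s, y) := hsy.2
  have hs0 : s0 < s := by
    refine lt_of_le_of_ne hs.1 fun h => ?_
    have := hb0 y hy (by rw [h]; exact hly)
    rw [h] at this
    linarith
  have hyr : dist y x0 < r := by
    refine lt_of_le_of_ne hy fun h => ?_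
    have := hb1 s hs y h hly
    linarith
  have hlp : 0 < l (s, y) := by
    refine lt_of_le_of_ne hly fun h => ?_
    have := hb2 s hs y hy h.symm
    linarith
  obtain ⟨hc2, hdt, hineq⟩ := hd s ⟨hs0, hs.2⟩ y hlp hyr hval
  have hspace : 0 ≤ Laplacian.laplacian (Z s) y := by
    refine lap_nonneg hc2 ?_
    have e1 : ∀ᶠ y' in 𝓝 y, dist y' x0 < r := isOpen_ball.mem_nhds (mem_ball.2 hyr)
    have e2 : ∀ᶠ y' in 𝓝 y, 0 < l (s, y') := by
      have hc : Continuous fun y' : E N => l (s, y') := hl.comp (by fun_prop)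
      exact (isOpen_lt continuous_const hc).mem_nhds hlp
    filter_upwards [e1, e2] with y' h1 h2
    have h3 : ((s, y') : ℝ × E N) ∈ D := ⟨⟨hs, h1.le⟩, h2.le⟩
    have h4 : W (s, y) ≤ W (s, y') := hmin h3
    exact le_of_mul_le_mul_left h4 (Real.exp_pos _)
  have htime : deriv (fun s => Z s y) s ≤ (K + 1) * Z s y := by
    have h1 : HasDerivAt (fun r : ℝ => Real.exp (-((K + 1) * r)))
        (Real.exp (-((K + 1) * s)) * -(K + 1)) s := by
      have := ((hasDerivAt_id s).const_mul (K + 1)).neg.exp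
      refine this.congr_deriv ?_
      simp
    have h2 := h1.mul hdt.hasDerivAt
    have h3 := deriv_nonpos_of_min (φ := fun r => W (r, y)) hs0 h2 fun q hq => by
      have h3 : ((q, y) : ℝ × E N) ∈ D :=
        ⟨⟨⟨hq.1, hq.2.trans hs.2⟩, hy⟩, hlm s q y hq.2 hlp⟩
      exact hmin h3
    have h4 : Real.exp (-((K + 1) * s)) * (deriv (fun s => Z s y) s - (K + 1) * Z s y) ≤ 0 := by
      have : Real.exp (-((K + 1) * s)) * (deriv (fun s => Z s y) s - (K + 1) * Z s y) =
        Real.exp (-((K + 1) * s)) * -(K + 1) * Z s y +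
          Real.exp (-((K + 1) * s)) * deriv (fun s => Z s y) s := by ring
      rw [this]; exact h3
    have h5 := Real.exp_pos (-((K + 1) * s))
    by_contra hc
    push Not at hc
    have := mul_pos h5 (sub_pos.2 hc)
    linarith
  linarith

/-! ### the planar profile -/

/-- moving planar profile -/
noncomputable def Sp (q : ℝ → ℝ) (ξ e : E N) (a : ℝ) (y : E N) : ℝ := q (inner ℝ (y - ξ) e - a)

theorem Sp_contDiff {q : ℝ → ℝ} (hq : ContDiff ℝ 2 q) (ξ e : E N) (a : ℝ) :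
    ContDiff ℝ 2 (Sp q ξ e a) := by
  unfold Sp
  refine hq.comp ?_
  exact ((contDiff_id.sub contDiff_const).inner ℝ contDiff_const).sub contDiff_const

theorem hd1 {q : ℝ → ℝ} (hq : ContDiff ℝ 2 q) (z : ℝ) : HasDerivAt q (deriv q z) z :=
  (hq.differentiable (by norm_num) z).hasDerivAt

theorem hd2 {q : ℝ → ℝ} (hq : ContDiff ℝ 2 q) (z : ℝ) :
    HasDerivAt (deriv q) (deriv (deriv q) z) z := by
  have h : ContDiff ℝ ((1 : ℕ) + (1 : ℕ) : ℕ) q := by exact_mod_cast hq
  have h2 := ContDiff.iterate_deriv' 1 1 h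
  rw [Function.iterate_one] at h2
  exact (h2.differentiable (by norm_num) z).hasDerivAt

theorem Sp_lap {q : ℝ → ℝ} (hq : ContDiff ℝ 2 q) (ξ e : E N) (a : ℝ) (y : E N) :
    Laplacian.laplacian (Sp q ξ e a) y =
      ‖e‖ ^ 2 * deriv (deriv q) (inner ℝ (y - ξ) e - a) := by
  have key : ∀ v : E N, fderiv ℝ (fderiv ℝ (Sp q ξ e a)) y v v =
      (inner ℝ e v) ^ 2 * deriv (deriv q) (inner ℝ (y - ξ) e - a) := by
    intro v
    have hin : ∀ t : ℝ, HasDerivAt (fun t : ℝ => inner ℝ (y + t • v - ξ) e - a)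
        (inner ℝ v e) t := by
      intro t
      have h2 : ∀ t : ℝ, inner ℝ (y + t • v - ξ) e - a =
          t * inner ℝ v e + (inner ℝ (y - ξ) e - a) := by
        intro t
        have : y + t • v - ξ = (y - ξ) + t • v := by abel
        rw [this, inner_add_left, inner_smul_left]
        simp only [conj_trivial]
        ring
      simp only [h2]
      have := ((hasDerivAt_id t).mul_const (inner ℝ v e)).add_const (inner ℝ (y - ξ) e - a)
      simpa using this
    refine line_eq (Sp_contDiff hq ξ e a).contDiffAt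
      (p := fun t => deriv q (inner ℝ (y + t • v - ξ) e - a) * inner ℝ v e) (fun t => ?_) ?_
    · exact (hd1 hq _).comp t (hin t)
    · have h1 : HasDerivAt (fun t : ℝ => deriv q (inner ℝ (y + t • v - ξ) e - a))
          (deriv (deriv q) (inner ℝ (y + (0 : ℝ) • v - ξ) e - a) * inner ℝ v e) 0 :=
        (hd2 hq _).comp (0 : ℝ) (hin 0)
      refine (h1.mul_const (inner ℝ v e)).congr_deriv ?_
      rw [zero_smul, add_zero, real_inner_comm v e]
      ring
  rw [lap_eq_sum, Finset.sum_congr rfl fun i _ => key _, ← Finset.sum_mul, sum_inner_sq]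

theorem Sp_time {q : ℝ → ℝ} (hq : ContDiff ℝ 2 q) (ξ e : E N) (v w s : ℝ) (y : E N) :
    HasDerivAt (fun s => Sp q ξ e (v * s + w) y)
      (-(v * deriv q (inner ℝ (y - ξ) e - (v * s + w)))) s := by
  have h1 : HasDerivAt (fun s : ℝ => inner ℝ (y - ξ) e - (v * s + w)) (-v) s := by
    have := (((hasDerivAt_id s).const_mul v).add_const w).const_sub (inner ℝ (y - ξ) e)
    simpa using this
  refine ((hd1 hq _).comp s h1).congr_deriv ?_
  ring

/-! ### the barrier -/

/-- the directions of the barrier -/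
noncomputable def ai (p : Fin N × Bool) : E N :=
  (if p.2 then (1 : ℝ) else -1) • EuclideanSpace.basisFun (Fin N) ℝ p.1

theorem norm_ai (p : Fin N × Bool) : ‖ai p‖ = 1 := by
  unfold ai
  rw [norm_smul, (EuclideanSpace.basisFun (Fin N) ℝ).norm_eq_one, mul_one]
  split_ifs <;> simp

theorem inner_ai (y : E N) (i : Fin N) (b : Bool) :
    inner ℝ y (ai (i, b)) = (if b then (1 : ℝ) else -1) * y i := by
  unfold ai
  rw [inner_smul_right, EuclideanSpace.basisFun_apply, EuclideanSpace.inner_single_right]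
  simp

/-- the barrier -/
noncomputable def Bl (N : ℕ) (x0 : E N) (k β s : ℝ) (y : E N) : ℝ :=
  Bs (ai (N := N)) x0 (fun _ => k) (fun _ => β) s y

theorem Bl_lap (x0 : E N) (k β s : ℝ) (y : E N) :
    Laplacian.laplacian (Bl N x0 k β s) y = Bl N x0 k β s y := by
  have h := Bs_lap (ai (N := N)) x0 (fun _ => k) (fun _ => β) s y
  unfold Bl
  rw [show (fun y => Bs (ai (N := N)) x0 (fun _ => k) (fun _ => β) s y) =
    Bs (ai (N := N)) x0 (fun _ => k) (fun _ => β) s from rfl, h]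
  unfold Bs
  refine Finset.sum_congr rfl fun p _ => ?_
  rw [norm_ai]; ring

theorem Bl_time (x0 : E N) (k β s : ℝ) (y : E N) :
    HasDerivAt (fun s => Bl N x0 k β s y) (k * Bl N x0 k β s y) s := by
  refine (Bs_time (ai (N := N)) x0 (fun _ => k) (fun _ => β) s y).congr_deriv ?_
  unfold Bl Bs
  rw [Finset.mul_sum]

theorem Bl_nonneg (x0 : E N) (k β s : ℝ) (y : E N) : 0 ≤ Bl N x0 k β s y := Bs_nonneg _ _ _ _ _ _

theorem Bl_centre (x0 : E N) (k β s : ℝ) :
    Bl N x0 k β s x0 = 2 * N * Real.exp (k * s + β) := by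
  unfold Bl Bs ex
  simp only [sub_self, inner_zero_left, zero_add]
  rw [Finset.sum_const, Finset.card_univ, Fintype.card_prod, Fintype.card_fin, Fintype.card_bool,
    nsmul_eq_mul]
  push_cast
  ring

/-- some coordinate is large -/
theorem exists_coord (hN : 1 ≤ N) {R : ℝ} (hR : 0 ≤ R) {X : E N} (h : R ≤ ‖X‖) :
    ∃ i, R / √N ≤ |X i| := by
  by_contra hc
  push Not at hc
  have hN0 : (0 : ℝ) < N := by exact_mod_cast hN
  have h1 : ‖X‖ ^ 2 < R ^ 2 := by
    rw [EuclideanSpace.norm_sq_eq]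
    have h2 : ∀ i ∈ (Finset.univ : Finset (Fin N)), ‖X i‖ ^ 2 < R ^ 2 / N := by
      intro i _
      have h3 := hc i
      have h4 : |X i| ^ 2 < (R / √N) ^ 2 := pow_lt_pow_left₀ h3 (abs_nonneg _) (by norm_num)
      rwa [div_pow, Real.sq_sqrt hN0.le] at h4
    have hne : (Finset.univ : Finset (Fin N)).Nonempty := ⟨⟨0, hN⟩, Finset.mem_univ _⟩
    have h5 := Finset.sum_lt_sum_of_nonempty hne h2
    rw [Finset.sum_const, Finset.card_univ, Fintype.card_fin, nsmul_eq_mul] at h5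
    have h6 : (N : ℝ) * (R ^ 2 / N) = R ^ 2 := by field_simp
    linarith
  have h2 := abs_lt_of_sq_lt_sq h1 hR
  rw [abs_of_nonneg (norm_nonneg _)] at h2
  linarith

theorem Bl_far (hN : 1 ≤ N) {R : ℝ} (hR : 0 ≤ R) {x0 y : E N} (h : R ≤ dist y x0) (k β s : ℝ) :
    Real.exp (R / √N + k * s + β) ≤ Bl N x0 k β s y := by
  rw [dist_eq_norm] at h
  obtain ⟨i, hi⟩ := exists_coord hN hR h
  have key : ∀ b : Bool, R / √N ≤ (if b then (1 : ℝ) else -1) * (y - x0) i →
      Real.exp (R / √N + k * s + β) ≤ Bl N x0 k β s y := by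
    intro b hb
    refine le_trans ?_ (Bs_pos_of_mem (ai (N := N)) x0 (fun _ => k) (fun _ => β) (i, b) s y)
    unfold ex
    rw [inner_ai]
    apply Real.exp_le_exp.2
    linarith
  rcases le_total 0 ((y - x0) i) with h0 | h0
  · refine key true ?_
    rw [abs_of_nonneg h0] at hi
    simpa using hi
  · refine key false ?_
    rw [abs_of_nonpos h0] at hi
    simpa using hi

/-! ### geometry and initial bound -/

theorem geo {U : Set (E N)} {e2 e4 M1 M t : ℝ} {x ξ e z : E N} (hne : U.Nonempty)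
    (hC : ∀ y ∈ U, inner ℝ (y - ξ) e ≤ e4 * ‖y - ξ‖) (hd : ‖x - ξ‖ ≤ M * t)
    (hz : ‖z - x‖ ≤ M1 * t) (he : ‖e‖ = 1) (ht : 0 ≤ t) (h4 : e4 * (2 * (M1 + M)) ≤ e2)
    (he4 : 0 ≤ e4) (he2 : 0 ≤ e2) : inner ℝ (z - ξ) e - e2 * t ≤ infDist z U := by
  refine (le_infDist hne).2 fun {y} hy => ?_
  by_contra hc
  push Not at hc
  rw [dist_eq_norm] at hc
  have h1 : inner ℝ (z - ξ) e ≤ ‖z - ξ‖ := by
    have := real_inner_le_norm (z - ξ) e
    rwa [he, mul_one] at this
  have h2 : ‖z - ξ‖ ≤ (M1 + M) * t := by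
    have : z - ξ = (z - x) + (x - ξ) := by abel
    rw [this]
    exact (norm_add_le _ _).trans (by linarith)
  have h3 : inner ℝ (z - y) e ≤ ‖z - y‖ := by
    have := real_inner_le_norm (z - y) e
    rwa [he, mul_one] at this
  have h5 : inner ℝ (z - ξ) e = inner ℝ (z - y) e + inner ℝ (y - ξ) e := by
    rw [← inner_add_left]; congr 1; abel
  have h6 : ‖y - ξ‖ ≤ ‖z - y‖ + (M1 + M) * t := by
    have : y - ξ = -(z - y) + (z - ξ) := by abel
    rw [this]
    refine (norm_add_le _ _).trans ?_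
    rw [norm_neg]; linarith
  have h7 := hC y hy
  have h8 : ‖y - ξ‖ ≤ 2 * (M1 + M) * t := by
    have : 0 ≤ e2 * t := mul_nonneg he2 ht
    linarith
  have h9 : e4 * ‖y - ξ‖ ≤ e2 * t := by
    calc e4 * ‖y - ξ‖ ≤ e4 * (2 * (M1 + M) * t) := mul_le_mul_of_nonneg_left h8 he4
      _ = e4 * (2 * (M1 + M)) * t := by ring
      _ ≤ e2 * t := mul_le_mul_of_nonneg_right h4 ht
  linarith

/-- the zero solution -/
theorem mild_zero {f : ℝ → ℝ} {K : ℝ} (hL : Lip f K) : Mild (N := N) f 0 (fun _ _ => 0) where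
  bdd := ⟨0, fun t _ x => by simp⟩
  meas := measurable_const
  cont := continuousOn_const
  duh s t hs hst x := by
    have h1 : P (t - s) (fun _ : E N => (0 : ℝ)) x = 0 := Pool.Agent.H29.TF.P_const (sub_pos.2 hst) 0 x
    have h2 : ∀ r, P (t - r) (fun _ : E N => f 0) x = 0 := by
      intro r
      rw [hL.f0]
      simp [Pool.Agent.H29.TF.P]
    rw [h1]
    simp only [h2]
    simp

theorem init (hTail : T_TAIL) (hCmp : T_CMP) {f : ℝ → ℝ} {K : ℝ} {U : Set (E N)}
    {u : ℝ → E N → ℝ} (hL : Lip f K) (hS : SolM f U u) {s0 r : ℝ}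
    (hs0 : 0 < s0) (hr : 0 ≤ r) {y : E N} (hy : r ≤ infDist y U) :
    u s0 y ≤ Real.exp (K * s0) * ((1 / 2 : ℝ) ^ (-(N : ℝ) / 2) *
      Real.exp (-(r ^ 2 / (8 * s0)))) := by
  have h1 := hCmp N f K K 0 0 s0 (lift0 U u) (fun _ _ => 0) hL le_rfl hs0 hS.mild (mild_zero hL)
    (fun r _ y hlt => by
      have := hL.lip (lift0 U u r y) 0
      have h3 := le_abs_self (f (lift0 U u r y) - f 0)
      rw [abs_of_pos (sub_pos.2 hlt)] at this
      linarith) y
  have e1 : lift0 U u s0 y = u s0 y := by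
    unfold lift0; rw [if_neg (not_le.2 hs0)]
  have e2 : lift0 U u 0 = chi U := by
    unfold lift0; rw [if_pos le_rfl]
  rw [e1, sub_zero, sub_zero, e2] at h1
  refine h1.trans (mul_le_mul_of_nonneg_left ?_ (Real.exp_pos _).le)
  have h2 := hTail N (1 / 2) s0 r (by norm_num) (by norm_num) hs0 hr y
    (fun y => max (chi U y - 0) 0) ?_ ?_ ?_
  · refine h2.trans (le_of_eq ?_)
    congr 3
    ring
  · have : Measurable (chi U) := measurable_const.indicator hS.meas
    exact ((this.sub measurable_const).max measurable_const).aestronglyMeasurable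
  · intro z
    unfold chi
    by_cases hz : z ∈ U
    · simp [indicator_of_mem hz]
    · simp [indicator_of_notMem hz]
  · intro z hz
    have : z ∉ U := fun hzU => by
      have := infDist_le_dist_of_mem (x := y) hzU
      linarith
    unfold chi
    simp [indicator_of_notMem this]

/-- a solution stays in `[0,1]` -/
theorem u01 {f : ℝ → ℝ} {U : Set (E N)} {u : ℝ → E N → ℝ} (hS : SolM f U u) {s : ℝ} (hs : 0 < s)
    (y : E N) : 0 ≤ u s y ∧ u s y ≤ 1 := by
  have h := hS.rng s hs.le y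
  unfold lift0 at h
  rwa [if_neg (not_le.2 hs)] at h

theorem core (hTail : T_TAIL) (hCmp : T_CMP) {f : ℝ → ℝ} {K : ℝ} {U : Set (E N)}
    {u : ℝ → E N → ℝ} (hN : 1 ≤ N) (hL : Lip f K) (hS : SolM f U u) (hne : U.Nonempty)
    {q : ℝ → ℝ} {c σ C Λ bj top : ℝ} (hc : 0 < c) (hσ : 0 < σ) (hC : 1 ≤ C)
    (hΛ : 0 < Λ) (hbj : 0 ≤ bj) (hq2 : ContDiff ℝ 2 q) (hqd : ∀ z, deriv q z < 0)
    (hqb : ∀ z, bj < q z) (hq0 : q 0 = top)
    (hqe : ∀ z ≥ 0, deriv (deriv q) z + (c + σ) * deriv q z + f (q z) ≤ 0)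
    (hql : ∀ z ≥ 0, C⁻¹ * Real.exp (-(Λ * z)) ≤ q z - bj)
    {ρ M M1 e2 e3 e4 e5 C2 t : ℝ} (hρ : 0 < ρ) (hM : 1 ≤ M) (hM1 : M1 = √N * (K + 2 + M))
    (he2 : e2 = ρ / 16) (he3 : 0 < e3) (he3' : e3 ≤ 1 / 2) (h3a : (c + σ) * e3 ≤ ρ / 16)
    (h3b : C2 * e3 ≤ ρ / 4) (he4 : 0 ≤ e4) (h4 : e4 * (2 * (M1 + M)) ≤ e2) (he5 : 0 < e5)
    (h5 : e5 ≤ ρ / 4) (hC2a : 4 * Λ ≤ C2) (hC2b : K + 1 ≤ C2 ^ 2 / 8) (ht : 0 < t)
    (hlog : 2 * (N : ℝ) ≤ Real.exp t)
    (hlog2 : (1 / 2 : ℝ) ^ (-(N : ℝ) / 2) * C ≤ Real.exp (e3 * t))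
    {x0 ξ e : E N} (hdir : Dir U x0 ξ e) (hd2' : infDist x0 U ≤ M * t)
    (hcone : ∀ y ∈ U, inner ℝ (y - ξ) e ≤ e4 * ‖y - ξ‖)
    {l : ℝ × E N → ℝ} (hl : Continuous l)
    (hlm : ∀ s s' y, s' ≤ s → 0 < l (s, y) → 0 ≤ l (s', y))
    (hA : ∀ s ∈ Icc (e3 * t) t, ∀ y, 0 ≤ l (s, y) → u s y ≤ top)
    (hB : ∀ s ∈ Icc (e3 * t) t, ∀ y, l (s, y) = 0 → infDist y U ≤ (c + e5) * s)
    (hl0 : 0 ≤ l (t, x0)) :
    u t x0 ≤ q (infDist x0 U - (c + σ + ρ) * t) + Real.exp (-(M * t)) := by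
  have hK := hL.K0
  have hN0 : (0 : ℝ) < N := by exact_mod_cast hN
  have hsN : 0 < √(N : ℝ) := Real.sqrt_pos.2 hN0
  have hM1p : 0 < M1 := by rw [hM1]; positivity
  have hM1N : M1 / √N = K + 2 + M := by rw [hM1]; field_simp
  set s0 : ℝ := e3 * t with hs0def
  have hs0 : 0 < s0 := mul_pos he3 ht
  have hs0t : s0 ≤ t := by rw [hs0def]; nlinarith
  have he2' : 0 ≤ e2 := by rw [he2]; linarith
  have hanti : StrictAnti q := strictAnti_of_deriv_neg hqd
  have hxi : ‖x0 - ξ‖ ≤ M * t := by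
    rw [← dist_eq_norm, hdir.near]; exact hd2'
  have hgeo : ∀ z, dist z x0 ≤ M1 * t → inner ℝ (z - ξ) e - e2 * t ≤ infDist z U := by
    intro z hz
    rw [dist_eq_norm] at hz
    exact geo hne hcone hxi hz hdir.unit ht.le h4 he4 he2'
  set w0 : ℝ := -((c + σ) * s0) + ρ / 2 * t with hw0
  set β : ℝ := -((K + 1) * s0) - (K + 2 + M) * t with hβ
  set Z : ℝ → E N → ℝ := fun s y =>
    Sp q ξ e ((c + σ) * s + w0) y + Bl N x0 (K + 1) β s y - u s y with hZ
  have hSpos : ∀ s y, 0 ≤ Sp q ξ e ((c + σ) * s + w0) y := fun s y => by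
    unfold Sp; linarith [hqb (inner ℝ (y - ξ) e - ((c + σ) * s + w0))]
  -- the sign on the boundary from the value of the argument
  have hbig : ∀ s ∈ Icc s0 t, ∀ y, 0 ≤ l (s, y) →
      inner ℝ (y - ξ) e - ((c + σ) * s + w0) ≤ 0 → 0 ≤ Z s y := by
    intro s hs y hly harg
    have h1 := hA s hs y hly
    have h2 : top ≤ Sp q ξ e ((c + σ) * s + w0) y := by
      unfold Sp; rw [← hq0]; exact hanti.antitone harg
    have h3 := Bl_nonneg x0 (K + 1) β s y
    simp only [hZ]; linarith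
  have key : 0 ≤ Z t x0 := by
    refine minp (K := K) (s0 := s0) (r := M1 * t) (l := l) hs0t (by positivity) ?_ hl hlm
      ?_ ?_ ?_ ?_ hl0
    · -- continuity
      have h1 : Continuous (fun p : ℝ × E N => Sp q ξ e ((c + σ) * p.1 + w0) p.2) := by
        unfold Sp
        exact hq2.continuous.comp (by fun_prop)
      have h2 : Continuous (fun p : ℝ × E N => Bl N x0 (K + 1) β p.1 p.2) :=
        Bs_continuous (ai (N := N)) x0 (fun _ => K + 1) (fun _ => β)
      have h3 : ContinuousOn (fun p : ℝ × E N => u p.1 p.2) (Icc s0 t ×ˢ univ) :=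
        hS.sol.cont.mono fun p hp => ⟨lt_of_lt_of_le hs0 hp.1.1, mem_univ _⟩
      exact (h1.add h2).continuousOn.sub h3
    · -- the differential inequality
      intro s hs y hly hyr hneg
      have hspos : 0 < s := hs0.trans hs.1
      have hScd := Sp_contDiff hq2 ξ e ((c + σ) * s + w0)
      have hBcd : ContDiff ℝ 2 (Bl N x0 (K + 1) β s) :=
        Bs_contDiff (ai (N := N)) x0 (fun _ => K + 1) (fun _ => β) s
      have hu2 := hS.sol.c2 s hspos
      have hut := hS.sol.dt s hspos y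
      have htd := ((Sp_time hq2 ξ e (c + σ) w0 s y).add
        (Bl_time x0 (K + 1) β s y)).sub hut.hasDerivAt
      have hdd : deriv (fun s => Z s y) s = -((c + σ) * deriv q (inner ℝ (y - ξ) e -
          ((c + σ) * s + w0))) + (K + 1) * Bl N x0 (K + 1) β s y - deriv (fun s => u s y) s :=
        htd.deriv
      have hlapZ : Laplacian.laplacian (Z s) y = deriv (deriv q) (inner ℝ (y - ξ) e -
          ((c + σ) * s + w0)) + Bl N x0 (K + 1) β s y - Laplacian.laplacian (u s) y := by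
        have h1 := (hScd.contDiffAt (x := y)).laplacian_add (hBcd.contDiffAt (x := y))
        have h2 := ((hScd.add hBcd).contDiffAt (x := y)).laplacian_sub (hu2.contDiffAt (x := y))
        have h3 : Z s = (fun y => Sp q ξ e ((c + σ) * s + w0) y + Bl N x0 (K + 1) β s y) - u s :=
          rfl
        rw [h3, h2]
        have h4 : (fun y => Sp q ξ e ((c + σ) * s + w0) y + Bl N x0 (K + 1) β s y) =
          Sp q ξ e ((c + σ) * s + w0) + Bl N x0 (K + 1) β s := rfl
        rw [h4, h1, Bl_lap, Sp_lap hq2, hdir.unit]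
        ring
      refine ⟨((hScd.add hBcd).sub hu2).contDiffAt, htd.differentiableAt, ?_⟩
      rw [hdd, hlapZ, hS.sol.eqn s hspos y]
      have hBn := Bl_nonneg x0 (K + 1) β s y
      have h1 : Sp q ξ e ((c + σ) * s + w0) y + Bl N x0 (K + 1) β s y - u s y < 0 := hneg
      have hlt : Sp q ξ e ((c + σ) * s + w0) y < u s y := by linarith
      have hut' := hA s ⟨hs.1.le, hs.2⟩ y hly.le
      have harg : 0 < inner ℝ (y - ξ) e - ((c + σ) * s + w0) := by
        by_contra hc'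
        push Not at hc'
        have := hbig s ⟨hs.1.le, hs.2⟩ y hly.le hc'
        linarith
      have he := hqe _ harg.le
      have hLf := hL.lip (u s y) (Sp q ξ e ((c + σ) * s + w0) y)
      rw [abs_of_pos (sub_pos.2 hlt)] at hLf
      have h6 := (le_abs_self _).trans hLf
      have h7 : Sp q ξ e ((c + σ) * s + w0) y = q (inner ℝ (y - ξ) e - ((c + σ) * s + w0)) := rfl
      have h8 : Z s y = Sp q ξ e ((c + σ) * s + w0) y + Bl N x0 (K + 1) β s y - u s y := rfl
      rw [h8]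
      rw [← h7] at he
      linarith
    · -- initial time
      intro y hyr hly
      have hmem : s0 ∈ Icc s0 t := ⟨le_rfl, hs0t⟩
      rcases le_or_gt (inner ℝ (y - ξ) e - ((c + σ) * s0 + w0)) 0 with harg | harg
      · exact hbig s0 hmem y hly harg
      set ζ : ℝ := inner ℝ (y - ξ) e - ((c + σ) * s0 + w0) with hζ
      have hζ' : inner ℝ (y - ξ) e = ζ + ρ / 2 * t := by rw [hζ, hw0]; ring
      have h1 := hgeo y hyr
      have hC20 : 0 < C2 := by linarith
      have h2 : ζ + C2 * s0 ≤ infDist y U := by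
        have : C2 * s0 ≤ ρ / 4 * t := by
          rw [hs0def, ← mul_assoc]; exact mul_le_mul_of_nonneg_right h3b ht.le
        rw [hζ', he2] at h1
        linarith [mul_pos hρ ht]
      have h3 := init hTail hCmp hL hS hs0 (by positivity : 0 ≤ ζ + C2 * s0) h2
      have h4' : Real.exp (K * s0) * ((1 / 2 : ℝ) ^ (-(N : ℝ) / 2) *
          Real.exp (-((ζ + C2 * s0) ^ 2 / (8 * s0)))) ≤ C⁻¹ * Real.exp (-(Λ * ζ)) := by
        have e1 : (ζ + C2 * s0) ^ 2 / (8 * s0) =
            ζ ^ 2 / (8 * s0) + C2 / 4 * ζ + C2 ^ 2 / 8 * s0 := by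
          field_simp; ring
        have e2' : 0 ≤ ζ ^ 2 / (8 * s0) := by positivity
        have e3' : K * s0 + -((ζ + C2 * s0) ^ 2 / (8 * s0)) ≤ -s0 + -(Λ * ζ) := by
          rw [e1]
          have i1 : (K + 1) * s0 ≤ C2 ^ 2 / 8 * s0 := mul_le_mul_of_nonneg_right hC2b hs0.le
          have i2 : Λ * ζ ≤ C2 / 4 * ζ := mul_le_mul_of_nonneg_right (by linarith) harg.le
          linarith
        have e4' := Real.exp_le_exp.2 e3'
        rw [Real.exp_add, Real.exp_add (-s0)] at e4'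
        have hA0 : 0 < (1 / 2 : ℝ) ^ (-(N : ℝ) / 2) := Real.rpow_pos_of_pos (by norm_num) _
        have e5' : (1 / 2 : ℝ) ^ (-(N : ℝ) / 2) * Real.exp (-s0) ≤ C⁻¹ := by
          rw [Real.exp_neg, ← div_eq_mul_inv, div_le_iff₀ (Real.exp_pos _), inv_mul_eq_div,
            le_div_iff₀ (by linarith)]
          exact hlog2
        calc Real.exp (K * s0) * ((1 / 2 : ℝ) ^ (-(N : ℝ) / 2) *
              Real.exp (-((ζ + C2 * s0) ^ 2 / (8 * s0))))
            = (1 / 2 : ℝ) ^ (-(N : ℝ) / 2) * (Real.exp (K * s0) *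
              Real.exp (-((ζ + C2 * s0) ^ 2 / (8 * s0)))) := by ring
          _ ≤ (1 / 2 : ℝ) ^ (-(N : ℝ) / 2) * (Real.exp (-s0) * Real.exp (-(Λ * ζ))) :=
              mul_le_mul_of_nonneg_left e4' hA0.le
          _ = (1 / 2 : ℝ) ^ (-(N : ℝ) / 2) * Real.exp (-s0) * Real.exp (-(Λ * ζ)) := by ring
          _ ≤ C⁻¹ * Real.exp (-(Λ * ζ)) :=
              mul_le_mul_of_nonneg_right e5' (Real.exp_pos _).le
      have h5' := hql ζ harg.le
      have h6 : Sp q ξ e ((c + σ) * s0 + w0) y = q ζ := rfl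
      have h7 := Bl_nonneg x0 (K + 1) β s0 y
      simp only [hZ]
      rw [h6]
      linarith
    · -- far away
      intro s hs y hyr _
      have hspos : 0 < s := hs0.trans_le hs.1
      have h1 := Bl_far hN (by positivity : 0 ≤ M1 * t) hyr.ge (K + 1) β s
      have h2 : 1 ≤ Real.exp (M1 * t / √N + (K + 1) * s + β) := by
        apply Real.one_le_exp
        rw [mul_div_right_comm, hM1N, hβ]
        linarith [mul_le_mul_of_nonneg_left hs.1 (by linarith : 0 ≤ K + 1)]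
      have h3 := (u01 hS hspos y).2
      have h4' := hSpos s y
      simp only [hZ]; linarith
    · -- the moving boundary
      intro s hs y hyr hly
      refine hbig s hs y hly.ge ?_
      have h1 := hgeo y hyr
      have h2 := hB s hs y hly
      rw [he2] at h1
      rw [hw0]
      have h3 : s ≤ t := hs.2
      have h4' : 0 < s := hs0.trans_le hs.1
      have h6 : (c + σ) * s0 ≤ ρ / 16 * t := by
        rw [hs0def, ← mul_assoc]; exact mul_le_mul_of_nonneg_right h3a ht.le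
      have h7 : e5 * s ≤ ρ / 4 * t := by
        calc e5 * s ≤ ρ / 4 * s := mul_le_mul_of_nonneg_right h5 h4'.le
          _ ≤ ρ / 4 * t := mul_le_mul_of_nonneg_left h3 (by linarith)
      linarith [mul_pos hσ h4', mul_pos hρ ht]
  have hd0 : inner ℝ (x0 - ξ) e = infDist x0 U := by
    rw [hdir.eq, inner_smul_left, real_inner_self_eq_norm_sq, hdir.unit]; simp
  have h1 : Z t x0 = q (infDist x0 U - ((c + σ) * t + w0)) +
      2 * N * Real.exp ((K + 1) * t + β) - u t x0 := by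
    simp only [hZ]
    rw [Bl_centre]
    unfold Sp
    rw [hd0]
  rw [h1] at key
  have h2 : q (infDist x0 U - ((c + σ) * t + w0)) ≤ q (infDist x0 U - (c + σ + ρ) * t) := by
    refine hanti.antitone ?_
    rw [hw0]
    have h6 : 0 < (c + σ) * s0 := by positivity
    linarith [mul_pos hρ ht]
  have h3 : 2 * N * Real.exp ((K + 1) * t + β) ≤ Real.exp (-(M * t)) := by
    have e1 : (K + 1) * t + β = -t + -(M * t) - (K + 1) * s0 := by rw [hβ]; ring
    have e2' : Real.exp ((K + 1) * t + β) ≤ Real.exp (-t) * Real.exp (-(M * t)) := by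
      rw [← Real.exp_add]
      apply Real.exp_le_exp.2
      rw [e1]
      have : 0 < (K + 1) * s0 := by positivity
      linarith
    have e3' : 2 * (N : ℝ) * Real.exp (-t) ≤ 1 := by
      rw [Real.exp_neg, ← div_eq_mul_inv, div_le_one (Real.exp_pos _)]
      exact hlog
    calc 2 * N * Real.exp ((K + 1) * t + β)
        ≤ 2 * N * (Real.exp (-t) * Real.exp (-(M * t))) :=
          mul_le_mul_of_nonneg_left e2' (by positivity)
      _ = 2 * N * Real.exp (-t) * Real.exp (-(M * t)) := by ring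
      _ ≤ 1 * Real.exp (-(M * t)) := mul_le_mul_of_nonneg_right e3' (Real.exp_pos _).le
      _ = Real.exp (-(M * t)) := one_mul _
  linarith

/-- the levels of a terrace are nonnegative -/
theorem ter_nonneg {f : ℝ → ℝ} {J : ℕ} {b c : ℕ → ℝ} {y : ℕ → ℝ → ℝ} (hT : Ter f J b c y) :
    ∀ j, j ≤ J → 0 ≤ b j := by
  intro j
  induction j with
  | zero => intro _; rw [hT.b0]
  | succ j ih =>
    intro h
    have h1 := ih (by omega)
    have h2 := hT.lt j (by omega)
    linarith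

/-- the region behind the next component -/
theorem region {f : ℝ → ℝ} {K : ℝ} {U : Set (E N)} {u : ℝ → E N → ℝ} {J : ℕ} {b c : ℕ → ℝ}
    {y : ℕ → ℝ → ℝ} (hS : Stg f K U u) (hT : Ter f J b c y) {j : ℕ} (hj : j < J)
    (hnext : j + 1 < J → ∀ ε > 0, ∃ T > 0, ∀ t ≥ T, ∀ x, (c (j + 1) + ε) * t ≤ infDist x U →
      u t x ≤ b (j + 1) + ε) {m e5 ρ : ℝ} (hm : 0 < m) (he5 : 0 < e5) (he5m : e5 ≤ m)
    (he5ρ : e5 ≤ ρ) :
    ∃ T5 > 0, ∃ l : ℝ × E N → ℝ, Continuous l ∧
      (∀ s s' y, s' ≤ s → 0 < l (s, y) → 0 ≤ l (s', y)) ∧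
      (∀ s ≥ T5, ∀ y, 0 ≤ l (s, y) → u s y ≤ b (j + 1) + m) ∧
      (∀ s > 0, ∀ y, l (s, y) = 0 → infDist y U ≤ (c j + e5) * s) ∧
      ∀ t > 0, ∀ x, (c j + ρ) * t ≤ infDist x U → 0 ≤ l (t, x) := by
  rcases Nat.lt_or_ge (j + 1) J with h | h
  · obtain ⟨T5, hT5, hT5'⟩ := hnext h e5 he5
    have hc1 := (hT.ext (j + 1) h).cpos
    have hcm := hT.mono j h
    refine ⟨T5, hT5, fun p => infDist p.2 U - (c (j + 1) + e5) * p.1, ?_, ?_, ?_, ?_, ?_⟩
    · exact ((continuous_infDist_pt U).comp continuous_snd).sub (by fun_prop)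
    · intro s s' y hs hl
      simp only at hl ⊢
      have : (c (j + 1) + e5) * s' ≤ (c (j + 1) + e5) * s :=
        mul_le_mul_of_nonneg_left hs (by linarith)
      linarith
    · intro s hs y hl
      simp only at hl
      have := hT5' s hs y (by linarith)
      linarith
    · intro s hs y hl
      simp only at hl
      have : (c (j + 1) + e5) * s ≤ (c j + e5) * s :=
        mul_le_mul_of_nonneg_right (by linarith) hs.le
      linarith
    · intro t ht x hx
      simp only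
      have : (c (j + 1) + e5) * t ≤ (c j + ρ) * t :=
        mul_le_mul_of_nonneg_right (by linarith) ht.le
      linarith
  · have hjJ : j + 1 = J := by omega
    refine ⟨1, one_pos, fun _ => 1, continuous_const, fun _ _ _ _ _ => zero_le_one, ?_, ?_, ?_⟩
    · intro s hs y _
      have := (u01 hS.sol (by linarith : 0 < s) y).2
      rw [hjJ, hT.bJ]; linarith
    · intro s _ y hl
      exact absurd hl one_ne_zero
    · intro _ _ _ _
      exact zero_le_one

/-- BQ -/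
theorem bq (hTail : T_TAIL) (hE0 : T_E0) (hCmp : T_CMP) : T_BQ := by
  intro N f K U u J b c y hS hT j hj hnext σ m C Λ q hσ hm hC hΛ hq2 hqd hqb hq0 hqe hql ρ hρ M0 hM0
  have hN := hS.N1
  have hK := hS.lip.K0
  have hc := (hT.ext j hj).cpos
  have hN0 : (0 : ℝ) < N := by exact_mod_cast hN
  set M : ℝ := max M0 1 with hMdef
  have hM : 1 ≤ M := le_max_right _ _
  have hMM : M0 ≤ M := le_max_left _ _
  obtain ⟨C2, hC2a, hC2b, hC2⟩ : ∃ C2 : ℝ, 4 * Λ ≤ C2 ∧ K + 1 ≤ C2 ^ 2 / 8 ∧ 0 < C2 := by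
    refine ⟨4 * Λ + 8 * (K + 1), by linarith, ?_, by positivity⟩
    nlinarith [mul_pos hΛ hK]
  obtain ⟨e3, he3, he3', h3a, h3b⟩ : ∃ e3 : ℝ, 0 < e3 ∧ e3 ≤ 1 / 2 ∧ (c j + σ) * e3 ≤ ρ / 16 ∧
      C2 * e3 ≤ ρ / 4 := by
    have hcs : 0 < c j + σ := by linarith
    refine ⟨min (1 / 2) (min (ρ / 16 / (c j + σ)) (ρ / 4 / C2)), ?_, min_le_left _ _, ?_, ?_⟩
    · exact lt_min (by norm_num) (lt_min (by positivity) (by positivity))
    · have h1 : min (1 / 2) (min (ρ / 16 / (c j + σ)) (ρ / 4 / C2)) ≤ ρ / 16 / (c j + σ) :=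
        (min_le_right _ _).trans (min_le_left _ _)
      rw [le_div_iff₀ hcs] at h1
      linarith
    · have h1 : min (1 / 2) (min (ρ / 16 / (c j + σ)) (ρ / 4 / C2)) ≤ ρ / 4 / C2 :=
        (min_le_right _ _).trans (min_le_right _ _)
      rw [le_div_iff₀ hC2] at h1
      linarith
  obtain ⟨e5, he5, he5ρ, he5m⟩ : ∃ e5 : ℝ, 0 < e5 ∧ e5 ≤ ρ / 4 ∧ e5 ≤ m :=
    ⟨min (ρ / 4) m, lt_min (by positivity) hm, min_le_left _ _, min_le_right _ _⟩
  set M1 : ℝ := √N * (K + 2 + M) with hM1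
  have hM1p : 0 < M1 := by positivity
  obtain ⟨e4, he4, h4⟩ : ∃ e4 : ℝ, 0 < e4 ∧ e4 * (2 * (M1 + M)) ≤ ρ / 16 := by
    refine ⟨ρ / 16 / (2 * (M1 + M)), by positivity, ?_⟩
    rw [div_mul_cancel₀ _ (by positivity)]
  obtain ⟨R, hR, hcone⟩ := hS.condC e4 he4
  obtain ⟨T5, hT5, l, hl, hlm, hA, hB, hl0⟩ :=
    region hS hT hj hnext hm he5 he5m (by linarith : e5 ≤ ρ)
  set A0 : ℝ := (1 / 2 : ℝ) ^ (-(N : ℝ) / 2) with hA0def
  have hA0 : 0 < A0 := Real.rpow_pos_of_pos (by norm_num) _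
  have hcρ : 0 < c j + ρ := by linarith
  have i1 : 0 ≤ R / (c j + ρ) := by positivity
  have i2 : 0 ≤ T5 / e3 := by positivity
  have i3 : 0 ≤ |Real.log (2 * N)| := abs_nonneg _
  have i4 : 0 ≤ |Real.log (A0 * C)| / e3 := by positivity
  refine ⟨1 + R / (c j + ρ) + T5 / e3 + |Real.log (2 * N)| + |Real.log (A0 * C)| / e3,
    by positivity, ?_⟩
  intro t ht x hx1 hx2
  have ht0 : 0 < t := by linarith
  have hRt : R ≤ infDist x U := by
    refine le_trans ?_ hx1
    have : R / (c j + ρ) ≤ t := by linarith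
    rw [div_le_iff₀ hcρ] at this
    linarith
  have hpos : 0 < infDist x U := lt_of_lt_of_le (by positivity) hx1
  obtain ⟨ξ, e, hdir⟩ := hE0 N U x hpos
  have hcone' : ∀ y ∈ U, inner ℝ (y - ξ) e ≤ e4 * ‖y - ξ‖ := by
    intro y hy
    have h1 := hcone x hRt ξ hdir.mem hdir.near y hy
    have h2 : ‖x - ξ‖ = infDist x U := by rw [← dist_eq_norm]; exact hdir.near
    rw [h2, hdir.eq, inner_smul_left] at h1
    simp only [conj_trivial] at h1
    rw [real_inner_comm]
    have h3 : infDist x U * inner ℝ e (y - ξ) ≤ infDist x U * (e4 * ‖y - ξ‖) := by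
      rw [← mul_assoc, mul_comm (infDist x U) e4]; exact h1
    exact le_of_mul_le_mul_left h3 hpos
  have hlog : 2 * (N : ℝ) ≤ Real.exp t := by
    rw [← Real.exp_log (by positivity : (0 : ℝ) < 2 * N)]
    apply Real.exp_le_exp.2
    linarith [le_abs_self (Real.log (2 * N))]
  have hlog2 : A0 * C ≤ Real.exp (e3 * t) := by
    rw [← Real.exp_log (by positivity : (0 : ℝ) < A0 * C)]
    apply Real.exp_le_exp.2
    have h1 : |Real.log (A0 * C)| / e3 ≤ t := by linarith
    rw [div_le_iff₀ he3] at h1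
    linarith [le_abs_self (Real.log (A0 * C))]
  have hT5t : T5 ≤ e3 * t := by
    have : T5 / e3 ≤ t := by linarith
    rw [div_le_iff₀ he3] at this
    linarith
  have hmain := core hTail hCmp hN hS.lip hS.sol hS.ne (c := c j) (σ := σ) hc hσ hC hΛ
    (ter_nonneg hT j hj.le) hq2 hqd hqb hq0 hqe hql hρ hM hM1 rfl he3 he3' h3a h3b he4.le h4
    he5 he5ρ hC2a hC2b ht0 hlog hlog2 hdir
    (hx2.trans (mul_le_mul_of_nonneg_right hMM ht0.le)) hcone' hl hlm
    (fun s hs y hly => hA s (hT5t.trans hs.1) y hly)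
    (fun s hs y hly => hB s (lt_of_lt_of_le (mul_pos he3 ht0) hs.1) y hly)
    (hl0 t ht0 x hx1)
  refine hmain.trans ?_
  have : Real.exp (-(M * t)) ≤ Real.exp (-(M0 * t)) := by
    apply Real.exp_le_exp.2
    have := mul_le_mul_of_nonneg_right hMM ht0.le
    linarith
  linarith

end Pool.Agent.H17.RF.BQ
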