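import Pool.Agent.H91.RF.TargetsF

/-!
# Module KINV: translation invariance and locality of the kernel
-/

open MeasureTheory Set Filter Topology Metric
open Pool.Agent.H29.TF (hk P)
open Pool.Agent.H91.RD Pool.Agent.H91.RF

namespace Pool.Agent.H17.RF

theorem gkn_trans {N : ℕ} (V : ℝ → E N → ℝ) (τ : ℝ) (ξ : E N) (n : ℕ) :
    ∀ (t : ℝ) (x : E N) (s : ℝ) (y : E N),
      gkn (fun t x => V (τ + t) (ξ + x)) n t x s y = gkn V n (τ + t) (ξ + x) (τ + s) (ξ + y) := by
  induction n with
  | zero =>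
    intro t x s y
    show hk (t - s) (x - y) = hk (τ + t - (τ + s)) (ξ + x - (ξ + y))
    rw [add_sub_add_left_eq_sub, add_sub_add_left_eq_sub]
  | succ n ih =>
    intro t x s y
    show (∫ r in s..t, ∫ z, hk (t - r) (x - z) * (V (τ + r) (ξ + z) *
        gkn (fun t x => V (τ + t) (ξ + x)) n r z s y)) =
      ∫ r in (τ + s)..(τ + t), ∫ z, hk (τ + t - r) (ξ + x - z) *
        (V r z * gkn V n r z (τ + s) (ξ + y))
    rw [← intervalIntegral.integral_comp_add_left (fun r => ∫ z, hk (τ + t - r) (ξ + x - z) *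
        (V r z * gkn V n r z (τ + s) (ξ + y)))]
    refine intervalIntegral.integral_congr fun r _ => ?_
    show (∫ z, hk (t - r) (x - z) * (V (τ + r) (ξ + z) *
        gkn (fun t x => V (τ + t) (ξ + x)) n r z s y)) =
      ∫ z, hk (τ + t - (τ + r)) (ξ + x - z) *
        (V (τ + r) z * gkn V n (τ + r) z (τ + s) (ξ + y))
    rw [← integral_add_left_eq_self (fun z => hk (τ + t - (τ + r)) (ξ + x - z) *
        (V (τ + r) z * gkn V n (τ + r) z (τ + s) (ξ + y))) ξ]
    refine integral_congr_ae (Filter.Eventually.of_forall fun z => ?_)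
    show hk (t - r) (x - z) * (V (τ + r) (ξ + z) *
        gkn (fun t x => V (τ + t) (ξ + x)) n r z s y) =
      hk (τ + t - (τ + r)) (ξ + x - (ξ + z)) *
        (V (τ + r) (ξ + z) * gkn V n (τ + r) (ξ + z) (τ + s) (ξ + y))
    rw [add_sub_add_left_eq_sub, add_sub_add_left_eq_sub, ih]

theorem gkn_loc {N : ℕ} (V W : ℝ → E N → ℝ) (s t : ℝ)
    (h : ∀ r ∈ Ioo s t, ∀ x, V r x = W r x) (n : ℕ) :
    ∀ r, s < r → r ≤ t → ∀ x y, gkn V n r x s y = gkn W n r x s y := by
  induction n with
  | zero => intro r _ _ x y; rfl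
  | succ n ih =>
    intro r hr hrt x y
    show (∫ r' in s..r, ∫ z, hk (r - r') (x - z) * (V r' z * gkn V n r' z s y)) =
      ∫ r' in s..r, ∫ z, hk (r - r') (x - z) * (W r' z * gkn W n r' z s y)
    rw [intervalIntegral.integral_of_le hr.le, intervalIntegral.integral_of_le hr.le,
      integral_Ioc_eq_integral_Ioo, integral_Ioc_eq_integral_Ioo]
    refine setIntegral_congr_fun measurableSet_Ioo fun r' hr' => ?_
    refine integral_congr_ae (Filter.Eventually.of_forall fun z => ?_)
    show hk (r - r') (x - z) * (V r' z * gkn V n r' z s y) =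
      hk (r - r') (x - z) * (W r' z * gkn W n r' z s y)
    rw [h r' ⟨hr'.1, hr'.2.trans_le hrt⟩ z, ih r' hr'.1 (hr'.2.le.trans hrt) z y]

/-- [KINV] -/
theorem kinv : T_KINV := by
  intro N V
  refine ⟨fun τ ξ t x s y => ?_, fun W s t hst h x y => ?_⟩
  · exact tsum_congr fun n => gkn_trans V τ ξ n t x s y
  · exact tsum_congr fun n => gkn_loc V W s t h n t hst le_rfl x y

end Pool.Agent.H17.RF
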