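import Pool.Agent.H34.RF.PWC

/-!
# Module PWB: one step of the entropy production

The pointwise bounds of `kw` follow `Pool.Agent.H28.RF.PWA`, the estimates for `rw0` are those of
`Pool.Agent.H34.RF.PWC`.
-/

open MeasureTheory Set Filter Topology Metric Real
open Pool.Agent.H29.TF (hk P)
open Pool.Agent.H91.RD Pool.Agent.H91.RF
open Pool.Agent.H34.RF.PWC

namespace Pool.Agent.H17.RF.PWB

variable {N : ℕ} {K C1 Kw : ℝ} {V : ℝ → E N → ℝ} {w : E N} {p : E N → ℝ}

/-- upper bound of the kernel -/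
theorem kw_le (hB : T_KBD) (hs : Sty K C1 Kw V w p) {τ : ℝ} (h0 : 0 < τ) (x y : E N) :
    kw V w p τ x y ≤ Real.exp (K * τ) * (Real.exp (C1 * ‖y - x‖) * hk τ (τ • w - (y - x))) := by
  have b2 := (hB N K V hs.pt (-τ) 0 (by linarith) x (y - τ • w)).2
  have e1 : x - (y - τ • w) = τ • w - (y - x) := by abel
  rw [zero_sub, neg_neg, e1] at b2
  have h2 := hs.har y x
  have h3 : 0 < hk τ (τ • w - (y - x)) := Pool.Agent.H29.TF.hk_pos h0 _
  unfold kw
  rw [div_le_iff₀ (hs.pos x)]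
  calc gk V 0 x (-τ) (y - τ • w) * p y
      ≤ (Real.exp (K * τ) * hk τ (τ • w - (y - x))) * p y :=
        mul_le_mul_of_nonneg_right b2 (hs.pos y).le
    _ ≤ (Real.exp (K * τ) * hk τ (τ • w - (y - x))) * (Real.exp (C1 * ‖y - x‖) * p x) :=
        mul_le_mul_of_nonneg_left h2 (by positivity)
    _ = _ := by ring

/-- exponential moments of the kernel -/
theorem kw_dom (hB : T_KBD) (hs : Sty K C1 Kw V w p) {S : ℝ} (hS : 0 < S) {a : ℝ} (ha : 0 ≤ a)
    (x y : E N) : kw V w p S x y * Real.exp (a * ‖y - x‖) ≤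
      Mx N K (C1 + a) Kw S * hk (2 * S) (S • w + x - y) := by
  have hC : 0 ≤ C1 := by linarith [hs.hC1]
  have h1 := kw_le hB hs hS x y
  have h2 := hk_exp_sub (a := C1 + a) hS (by linarith) (S • w) (y - x)
  have e1 : S • w - (y - x) = S • w + x - y := by abel
  have h3 : 0 < hk (2 * S) (S • w - (y - x)) := Pool.Agent.H29.TF.hk_pos (by linarith) _
  have h4 : ‖S • w‖ ≤ S * Kw := by
    rw [norm_smul, Real.norm_eq_abs, abs_of_pos hS]
    exact mul_le_mul_of_nonneg_left hs.wle hS.le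
  have h5 : Real.exp ((C1 + a) * ‖S • w‖ + 2 * (C1 + a) ^ 2 * S) ≤
      Real.exp ((C1 + a) * (S * Kw) + 2 * (C1 + a) ^ 2 * S) := by
    rw [Real.exp_le_exp]
    have := mul_le_mul_of_nonneg_left h4 (by linarith : 0 ≤ C1 + a)
    linarith
  have h6 : (0 : ℝ) < (2 : ℝ) ^ ((N : ℝ) / 2) := by positivity
  rw [← e1]
  calc kw V w p S x y * Real.exp (a * ‖y - x‖)
      ≤ (Real.exp (K * S) * (Real.exp (C1 * ‖y - x‖) * hk S (S • w - (y - x)))) *
        Real.exp (a * ‖y - x‖) := mul_le_mul_of_nonneg_right h1 (Real.exp_pos _).le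
    _ = Real.exp (K * S) * (hk S (S • w - (y - x)) * Real.exp ((C1 + a) * ‖y - x‖)) := by
        rw [add_mul, Real.exp_add]; ring
    _ ≤ Real.exp (K * S) * (Real.exp ((C1 + a) * ‖S • w‖ + 2 * (C1 + a) ^ 2 * S) *
        (2 : ℝ) ^ ((N : ℝ) / 2) * hk (2 * S) (S • w - (y - x))) :=
        mul_le_mul_of_nonneg_left h2 (Real.exp_pos _).le
    _ ≤ Real.exp (K * S) * (Real.exp ((C1 + a) * (S * Kw) + 2 * (C1 + a) ^ 2 * S) *
        (2 : ℝ) ^ ((N : ℝ) / 2) * hk (2 * S) (S • w - (y - x))) := by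
        refine mul_le_mul_of_nonneg_left ?_ (Real.exp_pos _).le
        exact mul_le_mul_of_nonneg_right (mul_le_mul_of_nonneg_right h5 h6.le) h3.le
    _ = _ := by unfold Mx; rw [Real.exp_add (K * S)]; ring

/-- the dominating function on the product -/
theorem dom_int {s τ : ℝ} (hs : 0 < s) (hτ : 0 < τ) (u v : E N) :
    Integrable (fun q : E N × E N => hk s (u - q.1) * hk τ (v + q.1 - q.2))
      (volume.prod volume) := by
  have hm : Measurable (fun q : E N × E N => hk s (u - q.1) * hk τ (v + q.1 - q.2)) := by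
    have h1 : Continuous (fun q : E N × E N => hk s (u - q.1)) :=
      (Pool.Agent.H29.TF.continuous_hk s).comp (by fun_prop)
    have h2 : Continuous (fun q : E N × E N => hk τ (v + q.1 - q.2)) :=
      (Pool.Agent.H29.TF.continuous_hk τ).comp (by fun_prop)
    exact (h1.mul h2).measurable
  refine (integrable_prod_iff hm.aestronglyMeasurable).2 ⟨Eventually.of_forall fun x => ?_, ?_⟩
  · show Integrable (fun y => hk s (u - x) * hk τ (v + x - y)) volume
    exact (Pool.Agent.H29.TF.integrable_hk_sub hτ (v + x)).const_mul (hk s (u - x))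
  · refine (Pool.Agent.H29.TF.integrable_hk_sub hs u).congr (Eventually.of_forall fun x => ?_)
    have h1 : ∀ y, ‖hk s (u - x) * hk τ (v + x - y)‖ = hk s (u - x) * hk τ (v + x - y) :=
      fun y => by
        rw [Real.norm_eq_abs, abs_of_pos (mul_pos (Pool.Agent.H29.TF.hk_pos hs _)
          (Pool.Agent.H29.TF.hk_pos hτ _))]
    simp only [h1]
    rw [integral_const_mul, Pool.Agent.H29.TF.integral_hk_sub hτ, mul_one]

/-- the data of the process used below -/
structure Dt (K C1 Kw : ℝ) (V : ℝ → E N → ℝ) (w : E N) (p : E N → ℝ) : Prop where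
  hB : T_KBD
  sty : Sty K C1 Kw V w p
  meas : ∀ τ > 0, Measurable (fun q : E N × E N => kw V w p τ q.1 q.2)
  pos : ∀ τ > 0, ∀ x y, 0 < kw V w p τ x y
  mass : ∀ τ > 0, ∀ x, ∫ y, kw V w p τ x y = 1
  semi : ∀ τ > 0, ∀ τ' > 0, ∀ x y, ∫ z, kw V w p τ x z * kw V w p τ' z y = kw V w p (τ + τ') x y
  rev : ∀ τ > 0, ∀ x y, Real.exp (inner ℝ w x) * p x ^ 2 * kw V w p τ x y =
      Real.exp (inner ℝ w y) * p y ^ 2 * kw V w p τ y x

/-- joint integrability -/
theorem JI (h : Dt K C1 Kw V w p) {s τ : ℝ} (hs : 0 < s) (hτ : 0 < τ) {a A : ℝ} (ha : 0 ≤ a)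
    {F : E N × E N → ℝ} (hF : Measurable F)
    (hA : ∀ q, |F q| ≤ A * Real.exp (a * (‖q.1‖ + ‖q.2‖))) :
    Integrable (fun q : E N × E N => rw0 V w p s q.1 * kw V w p τ q.1 q.2 * F q)
      (volume.prod volume) := by
  have hmx : 0 ≤ Mx N K (C1 + 2 * a) Kw s := by unfold Mx; positivity
  have hA0 : 0 ≤ A := by
    have h1 := (abs_nonneg _).trans (hA (0, 0))
    simpa using h1
  have h1 := ((dom_int (N := N) (by linarith : 0 < 2 * s) (by linarith : 0 < 2 * τ) (s • w)
    (τ • w)).const_mul (A * (Mx N K (C1 + 2 * a) Kw s * Mx N K (C1 + a) Kw τ)))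
  refine h1.mono' ?_ (Eventually.of_forall fun q => ?_)
  · exact ((((rw_meas h.meas hs).comp measurable_fst).mul (h.meas τ hτ)).mul
      hF).aestronglyMeasurable
  · obtain ⟨x, y⟩ := q
    have hr := (rw_pos h.hB h.sty hs x).le
    have hk' := (h.pos τ hτ x y).le
    have e1 : Real.exp (a * (‖x‖ + ‖y‖)) ≤ Real.exp (2 * a * ‖x‖) * Real.exp (a * ‖y - x‖) := by
      rw [← Real.exp_add, Real.exp_le_exp]
      have : ‖y‖ ≤ ‖x‖ + ‖y - x‖ := by
        calc ‖y‖ = ‖x + (y - x)‖ := by rw [add_sub_cancel]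
          _ ≤ _ := norm_add_le _ _
      nlinarith
    have e2 := rw_dom h.hB h.sty hs (a := 2 * a) (by linarith) x
    have e3 := kw_dom h.hB h.sty hτ ha x y
    have e4 : 0 ≤ Mx N K (C1 + a) Kw τ * hk (2 * τ) (τ • w + x - y) :=
      le_trans (mul_nonneg hk' (Real.exp_pos _).le) e3
    rw [Real.norm_eq_abs, abs_mul, abs_mul, abs_of_nonneg hr, abs_of_nonneg hk']
    calc rw0 V w p s x * kw V w p τ x y * |F (x, y)|
        ≤ rw0 V w p s x * kw V w p τ x y *
          (A * (Real.exp (2 * a * ‖x‖) * Real.exp (a * ‖y - x‖))) := by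
          refine mul_le_mul_of_nonneg_left ((hA (x, y)).trans ?_) (mul_nonneg hr hk')
          exact mul_le_mul_of_nonneg_left e1 hA0
      _ = A * ((rw0 V w p s x * Real.exp (2 * a * ‖x‖)) *
          (kw V w p τ x y * Real.exp (a * ‖y - x‖))) := by ring
      _ ≤ A * ((Mx N K (C1 + 2 * a) Kw s * hk (2 * s) (s • w - x)) *
          (Mx N K (C1 + a) Kw τ * hk (2 * τ) (τ • w + x - y))) := by
          refine mul_le_mul_of_nonneg_left ?_ hA0
          exact mul_le_mul e2 e3 (mul_nonneg hk' (Real.exp_pos _).le)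
            (mul_nonneg hmx (Pool.Agent.H29.TF.hk_pos (by linarith) _).le)
      _ = _ := by ring

theorem JI1 (h : Dt K C1 Kw V w p) {s τ : ℝ} (hs : 0 < s) (hτ : 0 < τ) {A : ℝ}
    {g : E N → ℝ} (hg : Measurable g) (hA : ∀ x, |g x| ≤ A * Real.exp ‖x‖) :
    Integrable (fun q : E N × E N => rw0 V w p s q.1 * kw V w p τ q.1 q.2 * g q.1)
      (volume.prod volume) := by
  have hA0 : 0 ≤ A := by
    have h1 := (abs_nonneg _).trans (hA 0)
    simpa using h1
  refine JI h hs hτ (a := 1) zero_le_one (A := A) (F := fun q => g q.1) (hg.comp measurable_fst)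
    fun q => (hA q.1).trans ?_
  refine mul_le_mul_of_nonneg_left (Real.exp_le_exp.2 ?_) hA0
  linarith [norm_nonneg q.2]

theorem JI2 (h : Dt K C1 Kw V w p) {s τ : ℝ} (hs : 0 < s) (hτ : 0 < τ) {A : ℝ}
    {g : E N → ℝ} (hg : Measurable g) (hA : ∀ x, |g x| ≤ A * Real.exp ‖x‖) :
    Integrable (fun q : E N × E N => rw0 V w p s q.1 * kw V w p τ q.1 q.2 * g q.2)
      (volume.prod volume) := by
  have hA0 : 0 ≤ A := by
    have h1 := (abs_nonneg _).trans (hA 0)
    simpa using h1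
  refine JI h hs hτ (a := 1) zero_le_one (A := A) (F := fun q => g q.2) (hg.comp measurable_snd)
    fun q => (hA q.2).trans ?_
  refine mul_le_mul_of_nonneg_left (Real.exp_le_exp.2 ?_) hA0
  linarith [norm_nonneg q.1]

theorem J1 (h : Dt K C1 Kw V w p) {s τ : ℝ} (hs : 0 < s) (hτ : 0 < τ) {A : ℝ}
    {g : E N → ℝ} (hg : Measurable g) (hA : ∀ x, |g x| ≤ A * Real.exp ‖x‖) :
    ∫ q : E N × E N, rw0 V w p s q.1 * kw V w p τ q.1 q.2 * g q.1 ∂(volume.prod volume) =
      ∫ x, rw0 V w p s x * g x := by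
  rw [integral_prod _ (JI1 h hs hτ hg hA)]
  refine integral_congr_ae (Eventually.of_forall fun x => ?_)
  have : ∀ y, rw0 V w p s x * kw V w p τ x y * g x = rw0 V w p s x * g x * kw V w p τ x y :=
    fun y => by ring
  simp only [this]
  rw [integral_const_mul, h.mass τ hτ, mul_one]

theorem J2 (h : Dt K C1 Kw V w p) {s τ : ℝ} (hs : 0 < s) (hτ : 0 < τ) {A : ℝ}
    {g : E N → ℝ} (hg : Measurable g) (hA : ∀ x, |g x| ≤ A * Real.exp ‖x‖) :
    ∫ q : E N × E N, rw0 V w p s q.1 * kw V w p τ q.1 q.2 * g q.2 ∂(volume.prod volume) =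
      ∫ y, rw0 V w p (s + τ) y * g y := by
  rw [integral_prod_symm _ (JI2 h hs hτ hg hA)]
  refine integral_congr_ae (Eventually.of_forall fun y => ?_)
  simp only
  rw [integral_mul_const]
  congr 1
  exact h.semi s hs τ hτ 0 y

/-- the entropy density -/
noncomputable def el (V : ℝ → E N → ℝ) (w : E N) (p : E N → ℝ) (s : ℝ) (y : E N) : ℝ :=
  Real.log (rw0 V w p s y) - inner ℝ w y - 2 * Real.log (p y)

theorem el_meas (h : Dt K C1 Kw V w p) {s : ℝ} (hs : 0 < s) : Measurable (el V w p s) := by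
  have h1 : Measurable fun y => Real.log (rw0 V w p s y) :=
    Real.measurable_log.comp (rw_meas h.meas hs)
  have h2 : Measurable fun y => Real.log (p y) :=
    Real.measurable_log.comp (p_cont h.sty).measurable
  have h3 : Measurable fun y : E N => inner ℝ w y := by fun_prop
  exact (h1.sub h3).sub (h2.const_mul 2)

theorem el_bd (h : Dt K C1 Kw V w p) {s : ℝ} (hs : 0 < s) :
    ∃ A, ∀ y, |el V w p s y| ≤ A * Real.exp ‖y‖ := by
  have hC1 : 0 ≤ C1 := by linarith [h.sty.hC1]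
  have hK := h.sty.pt.K0
  refine ⟨(K * s + C1 + (N : ℝ) / 2 * |Real.log (4 * π * s)| +
      (‖s • w‖ ^ 2 / (2 * s) + 1 / s)) + ‖w‖ + 2 * (C1 + |Real.log (p 0)|), fun y => ?_⟩
  have h1 := rw_log_bd h.hB h.sty hs y
  have h2 : ‖s • w - y‖ ^ 2 / (4 * s) ≤ ‖s • w‖ ^ 2 / (2 * s) + ‖y‖ ^ 2 / (2 * s) := by
    have h3 : ‖s • w - y‖ ^ 2 ≤ 2 * ‖s • w‖ ^ 2 + 2 * ‖y‖ ^ 2 := by
      have := norm_sub_le (s • w) y
      have h0 := norm_nonneg (s • w - y)
      nlinarith [sq_nonneg (‖s • w‖ - ‖y‖)]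
    have h4 : ‖s • w‖ ^ 2 / (2 * s) + ‖y‖ ^ 2 / (2 * s) =
        (2 * ‖s • w‖ ^ 2 + 2 * ‖y‖ ^ 2) / (4 * s) := by
      field_simp; ring
    rw [h4]
    exact div_le_div_of_nonneg_right h3 (by positivity)
  have h5 : ‖y‖ ^ 2 / (2 * s) ≤ 1 / s * Real.exp ‖y‖ := by
    have := sq_le_exp y
    rw [div_mul_eq_mul_div, one_mul, div_le_div_iff₀ (by positivity) hs]
    nlinarith
  have h6 := norm_le_exp y
  have h7 := one_le_exp' y
  have e1 : K * s ≤ K * s * Real.exp ‖y‖ := le_mul_of_one_le_right (by positivity) h7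
  have e2 : C1 * ‖y‖ ≤ C1 * Real.exp ‖y‖ := mul_le_mul_of_nonneg_left h6 hC1
  have e3 : (N : ℝ) / 2 * |Real.log (4 * π * s)| ≤
      (N : ℝ) / 2 * |Real.log (4 * π * s)| * Real.exp ‖y‖ :=
    le_mul_of_one_le_right (by positivity) h7
  have e4 : ‖s • w‖ ^ 2 / (2 * s) ≤ ‖s • w‖ ^ 2 / (2 * s) * Real.exp ‖y‖ :=
    le_mul_of_one_le_right (by positivity) h7
  have e5 : |inner ℝ w y| ≤ ‖w‖ * Real.exp ‖y‖ :=
    (abs_real_inner_le_norm w y).trans (mul_le_mul_of_nonneg_left h6 (norm_nonneg w))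
  have e6 : |Real.log (p y)| ≤ (C1 + |Real.log (p 0)|) * Real.exp ‖y‖ := by
    have g1 := p_log h.sty y
    have g3 : |Real.log (p 0)| ≤ |Real.log (p 0)| * Real.exp ‖y‖ :=
      le_mul_of_one_le_right (abs_nonneg _) h7
    have g4 : |Real.log (p y)| ≤ |Real.log (p y) - Real.log (p 0)| + |Real.log (p 0)| := by
      have := abs_add_le (Real.log (p y) - Real.log (p 0)) (Real.log (p 0))
      rwa [sub_add_cancel] at this
    rw [add_mul]
    linarith
  unfold el
  have e7 : |Real.log (rw0 V w p s y) - inner ℝ w y - 2 * Real.log (p y)| ≤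
      |Real.log (rw0 V w p s y)| + |inner ℝ w y| + 2 * |Real.log (p y)| := by
    have g1 := abs_sub (Real.log (rw0 V w p s y) - inner ℝ w y) (2 * Real.log (p y))
    have g2 := abs_sub (Real.log (rw0 V w p s y)) (inner ℝ w y)
    rw [abs_mul, abs_two] at g1
    linarith
  have e8 : ((K * s + C1 + (N : ℝ) / 2 * |Real.log (4 * π * s)| +
      (‖s • w‖ ^ 2 / (2 * s) + 1 / s)) + ‖w‖ + 2 * (C1 + |Real.log (p 0)|)) * Real.exp ‖y‖ =
      K * s * Real.exp ‖y‖ + C1 * Real.exp ‖y‖ +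
      (N : ℝ) / 2 * |Real.log (4 * π * s)| * Real.exp ‖y‖ +
      ‖s • w‖ ^ 2 / (2 * s) * Real.exp ‖y‖ + 1 / s * Real.exp ‖y‖ + ‖w‖ * Real.exp ‖y‖ +
      2 * ((C1 + |Real.log (p 0)|) * Real.exp ‖y‖) := by ring
  rw [e8]
  linarith

theorem in_bd (θ : E N) (y : E N) : |inner ℝ θ y| ≤ ‖θ‖ * Real.exp ‖y‖ :=
  (abs_real_inner_le_norm θ y).trans (mul_le_mul_of_nonneg_left (norm_le_exp y) (norm_nonneg θ))

theorem in_men (h : Dt K C1 Kw V w p) {s : ℝ} (hs : 0 < s) (θ : E N) :
    ∫ y, rw0 V w p s y * inner ℝ θ y = inner ℝ θ (men V w p s) := by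
  unfold men
  rw [← integral_inner (vec_int h.hB h.meas h.sty hs) θ]
  refine integral_congr_ae (Eventually.of_forall fun y => ?_)
  simp only [inner_smul_right]

/-- the pointwise inequality -/
theorem point (h : Dt K C1 Kw V w p) {s τ : ℝ} (hs : 0 < s) (hτ : 0 < τ) (θ x y : E N) :
    rw0 V w p s x * kw V w p τ x y * (el V w p (s + τ) y - inner ℝ θ y) +
      rw0 V w p s x * kw V w p τ x y * (inner ℝ θ x - el V w p s x) ≤
    rw0 V w p (s + τ) y * kw V w p τ y x * Real.exp (inner ℝ θ (x - y)) -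
      rw0 V w p s x * kw V w p τ x y * 1 := by
  have hr := rw_pos h.hB h.sty hs x
  have hr' := rw_pos h.hB h.sty (by linarith : 0 < s + τ) y
  have hk1 := h.pos τ hτ x y
  have hk2 := h.pos τ hτ y x
  have hrev := h.rev τ hτ x y
  have hlog := congrArg Real.log hrev
  have hpx := h.sty.pos x
  have hpy := h.sty.pos y
  rw [Real.log_mul (by positivity) hk1.ne', Real.log_mul (by positivity) (by positivity),
    Real.log_exp, Real.log_pow, Real.log_mul (by positivity) hk2.ne',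
    Real.log_mul (by positivity) (by positivity), Real.log_exp, Real.log_pow] at hlog
  push_cast at hlog
  set PP := rw0 V w p s x * kw V w p τ x y with hPP
  set PQ := rw0 V w p (s + τ) y * kw V w p τ y x with hPQ
  have hPP0 : 0 < PP := mul_pos hr hk1
  have hPQ0 : 0 < PQ := mul_pos hr' hk2
  have e1 : Real.log (PQ * Real.exp (inner ℝ θ (x - y)) / PP) =
      (el V w p (s + τ) y - inner ℝ θ y) + (inner ℝ θ x - el V w p s x) := by
    rw [Real.log_div (by positivity) hPP0.ne', Real.log_mul hPQ0.ne' (Real.exp_pos _).ne',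
      Real.log_exp, hPP, hPQ, Real.log_mul hr'.ne' hk2.ne', Real.log_mul hr.ne' hk1.ne',
      inner_sub_right]
    unfold el
    linarith
  have e2 := Real.log_le_sub_one_of_pos
    (div_pos (mul_pos hPQ0 (Real.exp_pos (inner ℝ θ (x - y)))) hPP0)
  rw [e1] at e2
  have e3 := mul_le_mul_of_nonneg_left e2 hPP0.le
  have e4 : PP * (PQ * Real.exp (inner ℝ θ (x - y)) / PP - 1) =
      PQ * Real.exp (inner ℝ θ (x - y)) - PP * 1 := by
    field_simp
  rw [e4, mul_add] at e3
  exact e3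

theorem el_int (h : Dt K C1 Kw V w p) {s : ℝ} (hs : 0 < s) (θ : E N) :
    ∃ A, ∀ y, |el V w p s y - inner ℝ θ y| ≤ A * Real.exp ‖y‖ := by
  obtain ⟨A, hA⟩ := el_bd h hs
  refine ⟨A + ‖θ‖, fun y => ?_⟩
  have g1 := abs_sub (el V w p s y) (inner ℝ θ y)
  have g2 := in_bd θ y
  rw [add_mul]
  linarith [hA y]

theorem int_el (h : Dt K C1 Kw V w p) {s : ℝ} (hs : 0 < s) (θ : E N) :
    ∫ y, rw0 V w p s y * (el V w p s y - inner ℝ θ y) =
      Jen V w p s - inner ℝ θ (men V w p s) := by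
  obtain ⟨A, hA⟩ := el_bd h hs
  have i1 : Integrable (fun y => rw0 V w p s y * el V w p s y) :=
    rw_int h.hB h.meas h.sty hs (el_meas h hs) hA
  have i2 : Integrable (fun y => rw0 V w p s y * inner ℝ θ y) :=
    rw_int h.hB h.meas h.sty hs (by fun_prop) (in_bd θ)
  rw [← in_men h hs θ]
  unfold Jen
  rw [← integral_sub (f := fun y => rw0 V w p s y * (Real.log (rw0 V w p s y) - inner ℝ w y -
    2 * Real.log (p y))) i1 i2]
  refine integral_congr_ae (Eventually.of_forall fun y => ?_)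
  unfold el
  ring

/-- [PWB] -/
theorem pwb (hB : T_KBD) (hPWA : T_PWA) : T_PWB := by
  intro N K C1 Kw θm hθm
  obtain ⟨C, hC, hP⟩ := hPWA N K C1 Kw θm hθm
  refine ⟨C, hC, fun V w p hsty s hs τ hτ hτ1 θ hθ => ?_⟩
  obtain ⟨p1, p2, p3, p4, p5, -, -, p8⟩ := hP V w p hsty
  have h : Dt K C1 Kw V w p := ⟨hB, hsty, p1, p2, p3, p4, p5⟩
  have hsτ : 0 < s + τ := by linarith
  obtain ⟨A1, hA1⟩ := el_int h hsτ θ
  obtain ⟨A2, hA2⟩ := el_int h hs θ
  have hA2' : ∀ x, |inner ℝ θ x - el V w p s x| ≤ A2 * Real.exp ‖x‖ := fun x => by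
    rw [abs_sub_comm]; exact hA2 x
  have m1 : Measurable fun y => el V w p (s + τ) y - inner ℝ θ y :=
    (el_meas h hsτ).sub (by fun_prop)
  have m2 : Measurable fun x => inner ℝ θ x - el V w p s x :=
    Measurable.sub (by fun_prop) (el_meas h hs)
  have i1 := JI2 h hs hτ m1 hA1
  have i2 := JI1 h hs hτ m2 hA2'
  have i3 : Integrable (fun q : E N × E N => rw0 V w p s q.1 * kw V w p τ q.1 q.2 * 1)
      (volume.prod volume) := by
    refine JI h hs hτ (a := 0) le_rfl (A := 1) (F := fun _ => 1) measurable_const fun q => ?_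
    simp
  have i4 : Integrable (fun q : E N × E N => rw0 V w p (s + τ) q.1 * kw V w p τ q.1 q.2 *
      Real.exp (inner ℝ θ (q.2 - q.1))) (volume.prod volume) := by
    refine JI h hsτ hτ (a := ‖θ‖) (norm_nonneg θ) (A := 1)
      (F := fun q => Real.exp (inner ℝ θ (q.2 - q.1))) (by fun_prop) fun q => ?_
    rw [abs_of_pos (Real.exp_pos _), one_mul, Real.exp_le_exp]
    have g1 := real_inner_le_norm θ (q.2 - q.1)
    have g2 := norm_sub_le q.2 q.1
    have g3 := mul_le_mul_of_nonneg_left g2 (norm_nonneg θ)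
    linarith
  have i4' : Integrable (fun q : E N × E N => rw0 V w p (s + τ) q.2 * kw V w p τ q.2 q.1 *
      Real.exp (inner ℝ θ (q.1 - q.2))) (volume.prod volume) := i4.swap
  -- integrate the pointwise inequality
  have key := integral_mono (i1.add i2) (i4'.sub i3) fun q => point h hs hτ θ q.1 q.2
  have l1 : ∫ q : E N × E N, ((fun q : E N × E N => rw0 V w p s q.1 * kw V w p τ q.1 q.2 *
      (el V w p (s + τ) q.2 - inner ℝ θ q.2)) + fun q : E N × E N => rw0 V w p s q.1 *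
      kw V w p τ q.1 q.2 * (inner ℝ θ q.1 - el V w p s q.1)) q ∂(volume.prod volume) =
      (Jen V w p (s + τ) - inner ℝ θ (men V w p (s + τ))) -
        (Jen V w p s - inner ℝ θ (men V w p s)) := by
    simp only [Pi.add_apply]
    rw [integral_add i1 i2, J2 h hs hτ m1 hA1, J1 h hs hτ m2 hA2', int_el h hsτ θ,
      ← int_el h hs θ]
    have : ∀ x, rw0 V w p s x * (inner ℝ θ x - el V w p s x) =
        -(rw0 V w p s x * (el V w p s x - inner ℝ θ x)) := fun x => by ring
    simp only [this]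
    rw [integral_neg]
    ring
  have l2 : ∫ q : E N × E N, ((fun q : E N × E N => rw0 V w p (s + τ) q.2 * kw V w p τ q.2 q.1 *
      Real.exp (inner ℝ θ (q.1 - q.2))) - fun q : E N × E N => rw0 V w p s q.1 *
      kw V w p τ q.1 q.2 * 1) q ∂(volume.prod volume) =
      (∫ q : E N × E N, rw0 V w p (s + τ) q.1 * kw V w p τ q.1 q.2 *
      Real.exp (inner ℝ θ (q.2 - q.1)) ∂(volume.prod volume)) - 1 := by
    simp only [Pi.sub_apply]
    rw [integral_sub i4' i3]
    congr 1
    · exact integral_prod_swap (fun q : E N × E N => rw0 V w p (s + τ) q.1 * kw V w p τ q.1 q.2 *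
        Real.exp (inner ℝ θ (q.2 - q.1)))
    · have g1 := J1 h hs hτ (g := fun _ => 1) measurable_const (A := 1) fun x => by
        rw [abs_one, one_mul]; exact one_le_exp' x
      rw [g1]
      simp only [mul_one]
      exact rw_one p3 hs
  rw [l1, l2] at key
  -- the exponential moment
  have n1 : Measurable fun y : E N => inner ℝ θ y := by fun_prop
  have j1 := JI1 h hsτ hτ n1 (in_bd θ)
  have j2 := JI2 h hsτ hτ n1 (in_bd θ)
  have hv : ∀ y, Integrable (fun x => kw V w p τ y x • (x - y)) := by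
    intro y
    have g1 : Integrable (fun x => Mx N K (C1 + 1) Kw τ * hk (2 * τ) (τ • w + y - x)) :=
      (Pool.Agent.H29.TF.integrable_hk_sub (by linarith) _).const_mul _
    refine g1.mono' ?_ (Eventually.of_forall fun x => ?_)
    · have : Measurable fun x => kw V w p τ y x :=
        (p1 τ hτ).comp (measurable_const.prodMk measurable_id)
      exact (this.smul (by fun_prop)).aestronglyMeasurable
    · rw [norm_smul, Real.norm_eq_abs, abs_of_pos (p2 τ hτ y x)]
      refine le_trans ?_ (kw_dom hB hsty hτ zero_le_one y x)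
      rw [one_mul]
      exact mul_le_mul_of_nonneg_left (norm_le_exp _) (p2 τ hτ y x).le
  have hm' : ∀ y, inner ℝ θ (∫ x, kw V w p τ y x • (x - y)) =
      ∫ x, kw V w p τ y x * (inner ℝ θ x - inner ℝ θ y) := by
    intro y
    rw [← integral_inner (hv y) θ]
    refine integral_congr_ae (Eventually.of_forall fun x => ?_)
    simp only [inner_smul_right, inner_sub_right]
  have j3 : Integrable (fun q : E N × E N => rw0 V w p (s + τ) q.1 * kw V w p τ q.1 q.2 *
      (inner ℝ θ q.2 - inner ℝ θ q.1)) (volume.prod volume) := by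
    refine (j2.sub j1).congr (Eventually.of_forall fun q => ?_)
    simp only [Pi.sub_apply]; ring
  have j4 := j3.integral_prod_left
  have hin : ∀ y, (∫ x, rw0 V w p (s + τ) y * kw V w p τ y x * (inner ℝ θ x - inner ℝ θ y)) =
      rw0 V w p (s + τ) y * inner ℝ θ (∫ x, kw V w p τ y x • (x - y)) := by
    intro y
    rw [hm' y, ← integral_const_mul]
    refine integral_congr_ae (Eventually.of_forall fun x => ?_)
    ring
  simp only [hin] at j4
  have l3 : ∫ y, rw0 V w p (s + τ) y * inner ℝ θ (∫ x, kw V w p τ y x • (x - y)) =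
      inner ℝ θ (men V w p (s + 2 * τ)) - inner ℝ θ (men V w p (s + τ)) := by
    have g1 := integral_prod _ j3
    simp only [hin] at g1
    rw [← g1]
    have g2 : ∀ q : E N × E N, rw0 V w p (s + τ) q.1 * kw V w p τ q.1 q.2 *
      (inner ℝ θ q.2 - inner ℝ θ q.1) = rw0 V w p (s + τ) q.1 * kw V w p τ q.1 q.2 *
      inner ℝ θ q.2 - rw0 V w p (s + τ) q.1 * kw V w p τ q.1 q.2 * inner ℝ θ q.1 :=
      fun q => by ring
    simp only [g2]
    rw [integral_sub j2 j1, J2 h hsτ hτ n1 (in_bd θ), J1 h hsτ hτ n1 (in_bd θ),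
      in_men h (by linarith) θ, in_men h hsτ θ]
    have : s + τ + τ = s + 2 * τ := by ring
    rw [this]
  have l4 : (∫ q : E N × E N, rw0 V w p (s + τ) q.1 * kw V w p τ q.1 q.2 *
      Real.exp (inner ℝ θ (q.2 - q.1)) ∂(volume.prod volume)) ≤
      (1 + ‖θ‖ ^ 2 * τ + C * (τ * √τ)) +
        (inner ℝ θ (men V w p (s + 2 * τ)) - inner ℝ θ (men V w p (s + τ))) := by
    rw [integral_prod _ i4, ← l3]
    have i0 := rw_integrable p3 hsτ
    have g0 : (1 + ‖θ‖ ^ 2 * τ + C * (τ * √τ)) =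
        ∫ y, (1 + ‖θ‖ ^ 2 * τ + C * (τ * √τ)) * rw0 V w p (s + τ) y := by
      rw [integral_const_mul, rw_one p3 hsτ, mul_one]
    rw [g0, ← integral_add (i0.const_mul _) j4]
    refine integral_mono i4.integral_prod_left ((i0.const_mul _).add j4) fun y => ?_
    have g1 : ∀ x, rw0 V w p (s + τ) y * kw V w p τ y x * Real.exp (inner ℝ θ (x - y)) =
        rw0 V w p (s + τ) y * (kw V w p τ y x * Real.exp (inner ℝ θ (x - y))) :=
      fun x => by ring
    simp only [g1]
    rw [integral_const_mul]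
    have g2 := mul_le_mul_of_nonneg_left (p8 τ hτ hτ1 θ hθ y) (rw_pos hB hsty hsτ y).le
    calc _ ≤ _ := g2
      _ = _ := by ring
  rw [inner_sub_right, inner_sub_right]
  linarith

end Pool.Agent.H17.RF.PWB
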